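import Pool.Agent.Run7.h104.Q2.Defs

set_option autoImplicit false

/-!
# MP_5bfbcb_an, Q2: piece IM (no interior maximum)
-/

namespace Pool.Agent.Run7.h437.Q2

open MeasureTheory Complex Set Filter Topology Pool.Agent.Run7.h104.Q2

theorem prove_IM : S_IM := by
  intro F H β a c z0 hz0 hFa hF0 hH hc hmax
  set Φ : ℂ → ℂ := fun z => (β : ℂ) * Complex.log (F z / F z0) + H z
    + (a : ℂ) * Complex.log (z / z0) + 2 * (c : ℂ) * ((starRingEnd ℂ) z0 * (z - z0)) with hΦ
  have hFne : ∀ᶠ z in 𝓝 z0, F z ≠ 0 := hFa.continuousAt.eventually_ne hF0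
  have hzne : ∀ᶠ z in 𝓝 z0, z ≠ 0 := continuousAt_id.eventually_ne hz0
  have hs1 : ∀ᶠ z in 𝓝 z0, F z / F z0 ∈ slitPlane := by
    have h1 : ContinuousAt (fun z => F z / F z0) z0 := hFa.continuousAt.div_const _
    refine h1.eventually_mem (isOpen_slitPlane.mem_nhds ?_)
    simp only [div_self hF0]
    exact one_mem_slitPlane
  have hs2 : ∀ᶠ z in 𝓝 z0, z / z0 ∈ slitPlane := by
    have h1 : ContinuousAt (fun z : ℂ => z / z0) z0 := continuousAt_id.div_const _
    refine h1.eventually_mem (isOpen_slitPlane.mem_nhds ?_)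
    simp only [div_self hz0]
    exact one_mem_slitPlane
  have hFd : ∀ᶠ z in 𝓝 z0, DifferentiableAt ℂ F z :=
    hFa.eventually_analyticAt.mono fun z hz => hz.differentiableAt
  have hdiff : ∀ᶠ z in 𝓝 z0, DifferentiableAt ℂ (fun z => Complex.exp (Φ z)) z := by
    filter_upwards [hs1, hs2, hFd] with z h1 h2 h3
    refine DifferentiableAt.cexp ?_
    have e1 : DifferentiableAt ℂ (fun z => Complex.log (F z / F z0)) z :=
      (h3.div_const _).clog h1
    have e2 : DifferentiableAt ℂ (fun z : ℂ => Complex.log (z / z0)) z :=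
      (differentiableAt_id.div_const _).clog h2
    have e3 : DifferentiableAt ℂ (fun z : ℂ => (starRingEnd ℂ) z0 * (z - z0)) z :=
      (differentiableAt_id.sub_const _).const_mul _
    exact (((e1.const_mul _).add (hH z)).add (e2.const_mul _)).add (e3.const_mul _)
  have hΦ0 : Φ z0 = H z0 := by
    simp only [hΦ, div_self hF0, div_self hz0, Complex.log_one, sub_self, mul_zero, zero_add,
      add_zero]
  have hre : ∀ᶠ z in 𝓝 z0, (Φ z).re + c * ‖z - z0‖ ^ 2 ≤ (Φ z0).re := by
    filter_upwards [hFne, hzne, hmax] with z h1 h2 h3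
    rw [hΦ0]
    have e1 : (Complex.log (F z / F z0)).re = Real.log ‖F z‖ - Real.log ‖F z0‖ := by
      rw [Complex.log_re, norm_div, Real.log_div (norm_ne_zero_iff.mpr h1)
        (norm_ne_zero_iff.mpr hF0)]
    have e2 : (Complex.log (z / z0)).re = Real.log ‖z‖ - Real.log ‖z0‖ := by
      rw [Complex.log_re, norm_div, Real.log_div (norm_ne_zero_iff.mpr h2)
        (norm_ne_zero_iff.mpr hz0)]
    have e3 : (Φ z).re = β * (Real.log ‖F z‖ - Real.log ‖F z0‖) + (H z).re
        + a * (Real.log ‖z‖ - Real.log ‖z0‖)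
        + 2 * c * ((starRingEnd ℂ) z0 * (z - z0)).re := by
      simp only [hΦ, Complex.add_re, Complex.re_ofReal_mul, e1, e2]
      have : (2 : ℂ) * (c : ℂ) = ((2 * c : ℝ) : ℂ) := by push_cast; ring
      rw [this, Complex.re_ofReal_mul]
    have e4 : ‖z‖ ^ 2 = ‖z0‖ ^ 2 + 2 * ((starRingEnd ℂ) z0 * (z - z0)).re + ‖z - z0‖ ^ 2 := by
      rw [Complex.sq_norm, Complex.sq_norm, Complex.sq_norm, Complex.normSq_apply,
        Complex.normSq_apply, Complex.normSq_apply]
      simp only [Complex.mul_re, Complex.conj_re, Complex.conj_im, Complex.sub_re, Complex.sub_im]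
      ring
    rw [e3]
    rw [e4] at h3
    linarith
  have hlm : IsLocalMax (norm ∘ fun z => Complex.exp (Φ z)) z0 := by
    filter_upwards [hre] with z hz
    simp only [Function.comp_apply, Complex.norm_exp]
    refine Real.exp_le_exp.mpr ?_
    nlinarith [sq_nonneg ‖z - z0‖]
  have hconst := Complex.norm_eventually_eq_of_isLocalMax hdiff hlm
  have hfin : ∀ᶠ z in 𝓝 z0, z = z0 := by
    filter_upwards [hconst, hre] with z h1 h2
    rw [Complex.norm_exp, Complex.norm_exp] at h1
    have h3 := Real.exp_injective h1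
    by_contra hne
    have h4 : 0 < ‖z - z0‖ := norm_pos_iff.mpr (sub_ne_zero.mpr hne)
    have : 0 < c * ‖z - z0‖ ^ 2 := by positivity
    linarith
  have h5 : ∀ᶠ z in 𝓝[≠] z0, z = z0 := hfin.filter_mono nhdsWithin_le_nhds
  obtain ⟨z, hz1, hz2⟩ := (h5.and self_mem_nhdsWithin).exists
  exact hz2 hz1

end Pool.Agent.Run7.h437.Q2
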