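import Pool.Agent.Run7.h437.Q2.Kern

set_option autoImplicit false

/-!
# MP_5bfbcb_an, Q2: piece LINT (integral bound in the steep range)
-/

namespace Pool.Agent.Run7.h437.Q2

open MeasureTheory AddCircle Complex Set Filter Topology Pool.Agent.W767.HL
open Pool.Agent.Run7.h104.Q2

noncomputable section

lemma analyticAt_ev (f : ℤ →₀ ℂ) {z : ℂ} (hz : z ≠ 0) : AnalyticAt ℂ (fun z => ev f z) z := by
  have h : (fun z => ev f z) = fun z => ∑ n ∈ f.support, f n * z ^ n := by
    funext w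
    rw [ev_eq_sum]
    rfl
  rw [h]
  refine Finset.analyticAt_fun_sum _ fun n _ => ?_
  exact analyticAt_const.mul (analyticAt_id.zpow hz)

lemma continuous_ev_pt (f : ℤ →₀ ℂ) (y : ℝ) : Continuous fun θ => ev f (pt y θ) := by
  rw [continuous_iff_continuousAt]
  intro θ
  exact ContinuousAt.comp (f := fun θ => pt y θ) (g := fun z => ev f z)
    (analyticAt_ev f (pt_ne y θ)).continuousAt (continuous_pt y).continuousAt

lemma continuous_Yc {S D' : ℝ} (f : ℤ →₀ ℂ) {h : ℂ → ℂ} (hh : Differentiable ℂ h) (y : ℝ) :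
    Continuous fun θ => Yc S D' (fun z => ev f z) h (pt y θ) := by
  unfold Yc
  have h1 : Continuous fun θ => (h (pt y θ)).re :=
    Complex.continuous_re.comp (hh.continuous.comp (continuous_pt y))
  have h2 : Continuous fun θ => max ‖ev f (pt y θ)‖ (Real.exp (S + (h (pt y θ)).re - D')) :=
    (continuous_ev_pt f y).norm.max
      (Real.continuous_exp.comp ((continuous_const.add h1).sub continuous_const))
  refine (continuous_const.add h1).sub (h2.log fun θ => ?_)
  exact (lt_max_of_lt_right (Real.exp_pos _)).ne'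

lemma Yc_nonneg {S D' : ℝ} (hD' : 0 ≤ D') {F h : ℂ → ℂ} {z : ℂ}
    (hF : ‖F z‖ ≤ Real.exp (S + (h z).re)) : 0 ≤ Yc S D' F h z := by
  unfold Yc
  have h1 : max ‖F z‖ (Real.exp (S + (h z).re - D')) ≤ Real.exp (S + (h z).re) :=
    max_le hF (Real.exp_le_exp.mpr (by linarith))
  have h2 := Real.log_le_log (lt_max_of_lt_right (Real.exp_pos _)) h1
  rw [Real.log_exp] at h2
  linarith

lemma Yc_le (S D' : ℝ) (F h : ℂ → ℂ) (z : ℂ) : Yc S D' F h z ≤ D' := by
  unfold Yc
  have h2 := Real.log_le_log (Real.exp_pos _)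
    (le_max_right ‖F z‖ (Real.exp (S + (h z).re - D')))
  rw [Real.log_exp] at h2
  linarith

lemma exists_good {κ1 κ7 A0 c0 D0 : ℝ} {N : ℕ} {G : ℤ →₀ ℂ} {f : ℕ → (ℤ →₀ ℂ)} {ell : ℕ → ℝ}
    (hS : Sys κ1 κ7 A0 c0 D0 N G f ell) (hc0 : 0 < c0) (hc1 : c0 ≤ 1) {i k : ℕ} (hik : i < k)
    (hkN : k ≤ N) {y : ℝ} (hy : 0 < y) (hy1 : y ≤ κ1 * ell k) (hy2 : y < ell i)
    {h : ℂ → ℂ} (hh : Differentiable ℂ h) (hh0 : ∀ z, ‖z‖ ≤ 1 → 0 ≤ (h z).re)
    (τ : Ci) (hG : PI (fun θ => ‖ev G (ze θ)‖) (pt (ell i) τ) ≤ Real.exp (D0 / 8))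
    (hh1 : (h (pt (ell i) τ)).re ≤ 1) :
    ∃ θ : Ci, ‖θ - τ‖ ≤ 18 / c0 * ell i ∧
      Real.exp (-(A0 * (2 ^ i * D0))) < ‖ev (f k) (pt y θ)‖ ∧ (h (pt y θ)).re ≤ 4 / c0 := by
  by_contra hcon
  push Not at hcon
  set R : ℝ := 18 / c0 with hR
  have hR1 : 1 ≤ R := by
    rw [hR, le_div_iff₀ hc0]
    linarith
  set d : ℝ := ell i - y with hd
  have hd0 : 0 < d := by linarith
  have hell := hS.ell_pos i
  have hri := hS.ri i k hik hkN y hy hy1 (pt (ell i) τ) (pt_ne _ _) (norm_pt_lt hell τ)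
    (by rw [dep_pt]) hG
  rw [up_pt, ← hd] at hri
  have hu : ‖pt d τ‖ < 1 := norm_pt_lt hd0 τ
  have hu' : ‖pt (R * d) τ‖ < 1 := norm_pt_lt (by positivity) τ
  have hre0 : ∀ θ, 0 ≤ (h (pt y θ)).re := fun θ => hh0 _ (norm_pt_lt hy θ).le
  set ind : Ci → ℝ := fun θ => if ‖ev (f k) (pt y θ)‖ ≤ Real.exp (-(A0 * (2 ^ i * D0)))
      then 1 else 0 with hind
  have hmeas : Measurable ind := by
    refine Measurable.ite ?_ measurable_const measurable_const
    exact (isClosed_le (continuous_ev_pt (f k) y).norm continuous_const).measurableSet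
  have hind0 : ∀ θ, 0 ≤ ind θ := by
    intro θ
    simp only [hind]
    split_ifs <;> norm_num
  have hind1 : ∀ θ, ind θ ≤ 1 := by
    intro θ
    simp only [hind]
    split_ifs <;> norm_num
  have hindI : Integrable ind mu := by
    refine Integrable.of_bound hmeas.aestronglyMeasurable 1 (Filter.Eventually.of_forall fun θ => ?_)
    rw [Real.norm_of_nonneg (hind0 θ)]
    exact hind1 θ
  have hpt : ∀ θ, P (pt d τ) θ ≤ P (pt d τ) θ * ind θ + c0 / 4 * (P (pt d τ) θ * (h (pt y θ)).re)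
      + c0 / 4 * P (pt (R * d) τ) θ := by
    intro θ
    have p1 := P_pos hu θ
    have p2 := P_pos hu' θ
    have p3 := hre0 θ
    have p4 : 0 ≤ c0 / 4 * (P (pt d τ) θ * (h (pt y θ)).re) := by positivity
    have p5 : 0 ≤ c0 / 4 * P (pt (R * d) τ) θ := by positivity
    by_cases hc : ‖ev (f k) (pt y θ)‖ ≤ Real.exp (-(A0 * (2 ^ i * D0)))
    · have : ind θ = 1 := by simp only [hind, if_pos hc]
      rw [this]
      linarith
    · have hi0 : ind θ = 0 := by simp only [hind, if_neg hc]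
      rw [hi0]
      rcases lt_or_ge (R * d) ‖θ - τ‖ with hfar | hnear
      · have h1 := P_far hd0 hR1 θ τ hfar
        have h2 : 9 / (2 * R) = c0 / 4 := by
          rw [hR]
          field_simp
          norm_num
        rw [h2] at h1
        linarith
      · have h1 : ‖θ - τ‖ ≤ R * ell i := hnear.trans (by nlinarith)
        have h2 := hcon θ h1 (lt_of_not_ge hc)
        have h3 : 1 ≤ c0 / 4 * (h (pt y θ)).re := by
          rw [div_lt_iff₀ hc0] at h2
          linarith
        nlinarith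
  have i1 : Integrable (P (pt d τ)) mu := integrable_of_cont (continuous_P hu)
  have i2 : Integrable (fun θ => P (pt d τ) θ * ind θ) mu := integrable_P_mul hu hindI
  have hcre : Continuous fun θ => (h (pt y θ)).re :=
    Complex.continuous_re.comp (hh.continuous.comp (continuous_pt y))
  have i3 : Integrable (fun θ => c0 / 4 * (P (pt d τ) θ * (h (pt y θ)).re)) mu :=
    integrable_of_cont (continuous_const.mul ((continuous_P hu).mul hcre))
  have i4 : Integrable (fun θ => c0 / 4 * P (pt (R * d) τ) θ) mu :=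
    integrable_of_cont (continuous_const.mul (continuous_P hu'))
  have hmono := integral_mono i1 ((i2.add i3).add i4) hpt
  have hsum : ∫ θ, (P (pt d τ) θ * ind θ + c0 / 4 * (P (pt d τ) θ * (h (pt y θ)).re)
      + c0 / 4 * P (pt (R * d) τ) θ) ∂mu
      = PI ind (pt d τ) + c0 / 4 * (h (pt (ell i) τ)).re + c0 / 4 := by
    have e1 : ∫ θ, (P (pt d τ) θ * ind θ + c0 / 4 * (P (pt d τ) θ * (h (pt y θ)).re)
        + c0 / 4 * P (pt (R * d) τ) θ) ∂mu
        = (∫ θ, (P (pt d τ) θ * ind θ + c0 / 4 * (P (pt d τ) θ * (h (pt y θ)).re)) ∂mu)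
          + ∫ θ, c0 / 4 * P (pt (R * d) τ) θ ∂mu := integral_add (i2.add i3) i4
    rw [e1, integral_add i2 i3, integral_const_mul, integral_const_mul, integral_P hu', mul_one]
    congr 2
    congr 1
    have hg : Differentiable ℂ fun z => h ((Real.exp (-y) : ℂ) * z) :=
      hh.comp (differentiable_id.const_mul _)
    have h3 := poisson_re hg hu
    have h4 : (Real.exp (-y) : ℂ) * pt d τ = pt (ell i) τ := by
      have := up_pt (-y) d τ
      unfold up at this
      rw [this, hd]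
      congr 1
      ring
    rw [h4] at h3
    exact h3
  have hmono2 : (1 : ℝ) ≤ PI ind (pt d τ) + c0 / 4 * (h (pt (ell i) τ)).re + c0 / 4 := by
    rw [← hsum]
    exact (integral_P hu).ge.trans hmono
  nlinarith

theorem prove_LINT (hCH : S_CHAIN) : S_LINT := by
  intro κ1 A0 c0 κ6 hκ1 hκ1' hA0 hc0 hc0' hκ6 hκ6'
  set n : ℕ := ⌈16 * (18 / c0) / κ6⌉₊ with hn
  obtain ⟨C, hC1, hC⟩ := hCH n
  refine ⟨16 * C * (1 + 4 / c0 + A0), max 1 (32 * Real.log (2 * (4 + 1 / κ6))), ?_, ?_⟩
  · have h1 : 0 < 4 / c0 := by positivity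
    nlinarith
  intro κ7 D0 N G f ell hDm hS i k hik hkN hyk h hh hh0 hF hG1 D' hD' zs hzs hzs1 hdep hzG
  have hD1 : 1 ≤ D0 := (le_max_left _ _).trans hDm
  have hD2 : 32 * Real.log (2 * (4 + 1 / κ6)) ≤ D0 := (le_max_right _ _).trans hDm
  have hell := hS.ell_pos i
  have hell1 := hS.ell_le i
  set yb : ℝ := κ6 * ell i with hyb
  have hyb0 : 0 < yb := by positivity
  have hyb1 : yb ≤ 1 / 16 := by nlinarith
  have hybl : yb ≤ ell i / 16 := by nlinarith
  set v : ℂ := up yb zs with hv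
  have hvne : v ≠ 0 := up_ne _ hzs
  have hdv : dep v = dep zs - yb := dep_up _ hzs
  have hvn : ‖v‖ = Real.exp (-dep v) := norm_eq_exp_dep hvne
  have hv1 : ‖v‖ < 1 := by
    rw [hvn, Real.exp_lt_one_iff]
    linarith
  have hLoc : LocData yb (D0 / 3) (fun z => ev (f k) z) h := by
    refine ⟨hyb0, hyb1, fun z hz => analyticAt_ev _ hz, hh, ?_⟩
    intro z hz h1 h2
    refine hF z hz ?_ (h2.trans hyk)
    rw [norm_eq_exp_dep hz, Real.exp_le_one_iff]
    linarith
  set φ : Ci → ℝ := fun θ => Yc (D0 / 3) D' (fun z => ev (f k) z) h (pt yb θ) with hφ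
  have hφc : Continuous φ := continuous_Yc (f k) hh yb
  have hφ0 : ∀ θ, 0 ≤ φ θ := by
    intro θ
    refine Yc_nonneg hD'.le (hLoc.pos _ (pt_ne _ _) ?_ ?_)
    · rw [dep_pt]
    · rw [dep_pt]
      linarith
  have hφD : ∀ θ, φ θ ≤ D' := fun θ => Yc_le _ _ _ _ _
  set a : ℝ := yb / 16 with ha
  have ha0 : 0 < a := by positivity
  have hker : 2 * Real.pi * a ≤ (1 - ‖v‖) / 4 := by
    have h1 := one_sub_exp_ge (x := dep v) (by linarith)
    rw [← hvn] at h1
    have h2 : 5 / 2 * yb ≤ dep v / (1 + dep v) := by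
      rw [le_div_iff₀ (by linarith)]
      have : 3 * yb ≤ dep v := by linarith
      nlinarith
    have h3 := Real.pi_lt_four
    have h4 : 2 * Real.pi * a = Real.pi * yb / 8 := by
      rw [ha]
      ring
    rw [h4]
    nlinarith
  obtain ⟨hI, havg⟩ := PI_avg hφc hφ0 hv1 ha0 hker
  have hGc : Continuous fun θ => ‖ev G (ze θ)‖ := (continuous_ev_ze G).norm
  have hG0 : ∀ θ, 0 ≤ ‖ev G (ze θ)‖ := fun θ => norm_nonneg _
  set Y0 : ℝ := D0 / 3 + 4 / c0 + A0 * (2 ^ i * D0) with hY0
  have hY0p : 0 < Y0 := by positivity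
  set g : Ci → ℝ := fun θ => ‖ev G (ze θ)‖ with hg
  have hbound : ∀ θ : Ci, ∫ s in (-a)..a, φ (θ + (s : Ci))
      ≤ C * yb * Y0 + 2 * a * D' * Real.exp (-(D0 / 8)) * PI g (pt (ell i) θ) := by
    intro θ
    have hPI0 : 0 ≤ PI g (pt (ell i) θ) := PI_nonneg hG0 (norm_pt_lt hell θ)
    rcases le_or_gt (PI g (pt (ell i) θ)) (Real.exp (D0 / 8)) with hgood | hbad
    · have hre1 : (h (pt (ell i) θ)).re ≤ 1 :=
        hG1 _ (pt_ne _ _) (norm_pt_lt hell θ) (by rw [dep_pt]) hgood
      obtain ⟨θg, hg1, hg2, hg3⟩ := exists_good hS hc0 hc0' hik hkN (y := 2 * yb) (by positivity)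
        (by linarith) (by linarith) hh hh0 θ hgood hre1
      obtain ⟨t0, ht0⟩ := QuotientAddGroup.mk_surjective θ
      have ht0' : (t0 : Ci) = θ := ht0
      obtain ⟨δ, hδ, hδn⟩ := exists_rep (θg - θ)
      have htg : ((t0 + δ : ℝ) : Ci) = θg := by
        rw [AddCircle.coe_add, ht0', hδ]
        abel
      have hne : ev (f k) (pt (2 * yb) ((t0 + δ : ℝ) : Ci)) ≠ 0 := by
        rw [htg, ← norm_pos_iff]
        exact (Real.exp_pos _).trans hg2
      have hch := hC yb (D0 / 3) D' (fun z => ev (f k) z) h hLoc hD' (t0 + δ) t0 Y0 hY0p hne (by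
        rw [htg]
        have h1 := Real.log_le_log (Real.exp_pos _) hg2.le
        rw [Real.log_exp] at h1
        linarith) (by
        have h1 : t0 - (t0 + δ) = -δ := by ring
        rw [h1, abs_neg, hδn]
        refine hg1.trans ?_
        have h2 : 16 * (18 / c0) / κ6 ≤ n := Nat.le_ceil _
        have h3 : 18 / c0 * ell i = 16 * (18 / c0) / κ6 * (yb / 16) := by
          rw [hyb]
          field_simp
        rw [h3]
        exact mul_le_mul_of_nonneg_right h2 (by positivity))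
      have hcv : ∫ s in (-a)..a, φ (θ + (s : Ci))
          = ∫ t in (t0 - yb / 16)..(t0 + yb / 16),
            Yc (D0 / 3) D' (fun z => ev (f k) z) h (pt yb (t : Ci)) := by
        have h1 := intervalIntegral.integral_comp_add_left (a := -a) (b := a)
          (fun t : ℝ => φ (t : Ci)) t0
        rw [← ha, sub_eq_add_neg, ← h1]
        refine intervalIntegral.integral_congr fun s _ => ?_
        rw [AddCircle.coe_add, ht0']
      rw [hcv]
      refine hch.trans ?_
      have : 0 ≤ 2 * a * D' * Real.exp (-(D0 / 8)) * PI g (pt (ell i) θ) := by positivity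
      linarith
    · have h1 : ∫ s in (-a)..a, φ (θ + (s : Ci)) ≤ ∫ _s in (-a)..a, D' := by
        refine intervalIntegral.integral_mono_on (by linarith) ?_ ?_ fun s _ => hφD _
        · exact (hφc.comp (continuous_const.add (AddCircle.continuous_mk' 1))).intervalIntegrable _ _
        · exact intervalIntegrable_const
      rw [intervalIntegral.integral_const, smul_eq_mul] at h1
      have h2 : 1 ≤ Real.exp (-(D0 / 8)) * PI g (pt (ell i) θ) := by
        calc (1 : ℝ) = Real.exp (-(D0 / 8)) * Real.exp (D0 / 8) := by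
              rw [← Real.exp_add, neg_add_cancel, Real.exp_zero]
          _ ≤ _ := mul_le_mul_of_nonneg_left hbad.le (Real.exp_pos _).le
      have h3 : 2 * a * D' * 1 ≤ 2 * a * D' * (Real.exp (-(D0 / 8)) * PI g (pt (ell i) θ)) :=
        mul_le_mul_of_nonneg_left h2 (by positivity)
      have h4 : 0 < C * yb * Y0 := by positivity
      calc ∫ s in (-a)..a, φ (θ + (s : Ci)) ≤ (a - -a) * D' := h1
        _ = 2 * a * D' * 1 := by ring
        _ ≤ 2 * a * D' * (Real.exp (-(D0 / 8)) * PI g (pt (ell i) θ)) := h3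
        _ = 2 * a * D' * Real.exp (-(D0 / 8)) * PI g (pt (ell i) θ) := by ring
        _ ≤ _ := by linarith
  have hint : ∫ θ, P v θ * (∫ s in (-a)..a, φ (θ + (s : Ci))) ∂mu
      ≤ C * yb * Y0 + 2 * a * D' * Real.exp (-(D0 / 8)) * PI g (up (-(ell i)) v) := by
    have i1 : Integrable (fun θ => P v θ * (C * yb * Y0)) mu :=
      integrable_of_cont ((continuous_P hv1).mul continuous_const)
    have i2 : Integrable (fun θ => 2 * a * D' * Real.exp (-(D0 / 8)) *
        (P v θ * PI g (pt (ell i) θ))) mu := (integrable_P_PI hGc hell hv1).const_mul _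
    calc ∫ θ, P v θ * (∫ s in (-a)..a, φ (θ + (s : Ci))) ∂mu
        ≤ ∫ θ, (P v θ * (C * yb * Y0) + 2 * a * D' * Real.exp (-(D0 / 8)) *
          (P v θ * PI g (pt (ell i) θ))) ∂mu := by
          refine integral_mono hI (i1.add i2) fun θ => ?_
          simp only
          have h1 := mul_le_mul_of_nonneg_left (hbound θ) (P_pos hv1 θ).le
          refine h1.trans (le_of_eq ?_)
          ring
      _ = _ := by
          rw [integral_add i1 i2, integral_mul_const, integral_P hv1, one_mul,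
            integral_const_mul, PI_semi hGc hell hv1]
  have hcomp : PI g (up (-(ell i)) v) ≤ (4 + 1 / κ6) * Real.exp (D0 / 32) := by
    set c : ℝ := Real.exp (-(ell i - yb)) with hc
    have hcz : up (-(ell i)) v = (c : ℂ) * zs := by
      rw [hv, hc]
      unfold up
      rw [← mul_assoc, ← Complex.ofReal_mul, ← Real.exp_add]
      congr 3
      ring
    have hc1 : c ≤ 1 := Real.exp_le_one_iff.mpr (by linarith)
    have hl : 1 - c ^ 2 * ‖zs‖ ^ 2 ≤ (1 + 1 / (4 * κ6)) * (1 - ‖zs‖ ^ 2) := by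
      have e1 : ‖zs‖ ^ 2 = Real.exp (-(2 * dep zs)) := by
        rw [norm_eq_exp_dep hzs, ← Real.exp_nat_mul]
        congr 1
        push_cast
        ring
      have e2 : c ^ 2 = Real.exp (-(2 * (ell i - yb))) := by
        rw [hc, ← Real.exp_nat_mul]
        congr 1
        push_cast
        ring
      have e3 := Real.add_one_le_exp (-(2 * (ell i - yb)))
      have e4 := Real.add_one_le_exp (2 * dep zs)
      have e5 : Real.exp (-(2 * dep zs)) * Real.exp (2 * dep zs) = 1 := by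
        rw [← Real.exp_add, neg_add_cancel, Real.exp_zero]
      have e6 := Real.exp_pos (-(2 * dep zs))
      have e7 : Real.exp (-(2 * dep zs)) * (2 * dep zs) ≤ 1 - Real.exp (-(2 * dep zs)) := by
        nlinarith
      have e8 : ell i - yb ≤ 1 / (4 * κ6) * dep zs := by
        have : ell i = 1 / (4 * κ6) * (4 * yb) := by
          rw [hyb]
          field_simp
        have h9 : 1 / (4 * κ6) * (4 * yb) ≤ 1 / (4 * κ6) * dep zs :=
          mul_le_mul_of_nonneg_left hdep (by positivity)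
        linarith
      rw [e1, e2]
      have hk : 0 < 1 / (4 * κ6) := by positivity
      have e9 : Real.exp (-(2 * dep zs)) * (1 - Real.exp (-(2 * (ell i - yb))))
          ≤ 1 / (4 * κ6) * (1 - Real.exp (-(2 * dep zs))) := by
        calc Real.exp (-(2 * dep zs)) * (1 - Real.exp (-(2 * (ell i - yb))))
            ≤ Real.exp (-(2 * dep zs)) * (2 * (1 / (4 * κ6) * dep zs)) := by
              refine mul_le_mul_of_nonneg_left ?_ e6.le
              linarith
          _ = 1 / (4 * κ6) * (Real.exp (-(2 * dep zs)) * (2 * dep zs)) := by ring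
          _ ≤ _ := mul_le_mul_of_nonneg_left e7 hk.le
      nlinarith
    rw [hcz]
    have hczn : ‖(c : ℂ) * zs‖ < 1 := by
      rw [norm_mul, Complex.norm_real, Real.norm_of_nonneg (Real.exp_pos _).le]
      nlinarith [norm_nonneg zs, Real.exp_pos (-(ell i - yb))]
    have h1 := PI_mono_P hGc hG0 hczn hzs1 (fun θ => P_in hzs1 (Real.exp_pos _).le hc1 hl θ)
    have h2 : 4 * (1 + 1 / (4 * κ6)) = 4 + 1 / κ6 := by
      field_simp
    rw [h2] at h1
    refine h1.trans (mul_le_mul_of_nonneg_left hzG (by positivity))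
  have hexp : 2 * (4 + 1 / κ6) * (Real.exp (-(D0 / 8)) * Real.exp (D0 / 32))
      ≤ Real.exp (-(D0 / 16)) := by
    have h0 : 0 < 2 * (4 + 1 / κ6) := by positivity
    have h1 : 2 * (4 + 1 / κ6) ≤ Real.exp (D0 / 32) := by
      rw [← Real.exp_log h0]
      exact Real.exp_le_exp.mpr (by linarith)
    calc 2 * (4 + 1 / κ6) * (Real.exp (-(D0 / 8)) * Real.exp (D0 / 32))
        ≤ Real.exp (D0 / 32) * (Real.exp (-(D0 / 8)) * Real.exp (D0 / 32)) :=
          mul_le_mul_of_nonneg_right h1 (by positivity)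
      _ = Real.exp (-(D0 / 16)) := by
          rw [← Real.exp_add, ← Real.exp_add]
          congr 1
          ring
  have hfin : a * PI φ v ≤ a * (16 * C * Y0 + D' * Real.exp (-(D0 / 16))) := by
    refine (havg.trans hint).trans ?_
    have h1 : 2 * a * D' * Real.exp (-(D0 / 8)) * PI g (up (-(ell i)) v)
        ≤ 2 * a * D' * Real.exp (-(D0 / 8)) * ((4 + 1 / κ6) * Real.exp (D0 / 32)) :=
      mul_le_mul_of_nonneg_left hcomp (by positivity)
    have h2 : 2 * a * D' * Real.exp (-(D0 / 8)) * ((4 + 1 / κ6) * Real.exp (D0 / 32))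
        = a * D' * (2 * (4 + 1 / κ6) * (Real.exp (-(D0 / 8)) * Real.exp (D0 / 32))) := by ring
    have h3 : a * D' * (2 * (4 + 1 / κ6) * (Real.exp (-(D0 / 8)) * Real.exp (D0 / 32)))
        ≤ a * D' * Real.exp (-(D0 / 16)) := mul_le_mul_of_nonneg_left hexp (by positivity)
    have h4 : C * yb * Y0 = a * (16 * C * Y0) := by
      rw [ha]
      ring
    rw [h4]
    linarith
  have hfin2 := le_of_mul_le_mul_left hfin ha0
  refine hfin2.trans ?_
  have h2i : (1 : ℝ) ≤ 2 ^ i := one_le_pow₀ (by norm_num)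
  have h2D : 1 ≤ 2 ^ i * D0 := by nlinarith
  have h3 : Y0 ≤ (1 + 4 / c0 + A0) * (2 ^ i * D0) := by
    have e1 : D0 / 3 ≤ 2 ^ i * D0 := by nlinarith
    have e2 : 4 / c0 ≤ 4 / c0 * (2 ^ i * D0) := by
      have : 0 < 4 / c0 := by positivity
      nlinarith
    rw [hY0]
    nlinarith
  have h4 : 16 * C * Y0 ≤ 16 * C * ((1 + 4 / c0 + A0) * (2 ^ i * D0)) :=
    mul_le_mul_of_nonneg_left h3 (by positivity)
  linarith

end

end Pool.Agent.Run7.h437.Q2
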