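import Pool.Agent.Run7.h104.Q2.Defs

set_option autoImplicit false

/-!
# MP_5bfbcb_an, Q2: lemmas on the Poisson kernel (for LINT)
-/

namespace Pool.Agent.Run7.h437.Q2

open MeasureTheory AddCircle Complex Set Filter Topology Pool.Agent.W767.HL
open Pool.Agent.Run7.h104.Q2

noncomputable section

lemma norm_pt (y : ℝ) (θ : Ci) : ‖pt y θ‖ = Real.exp (-y) := by
  unfold pt
  rw [norm_mul, norm_ze, mul_one, Complex.norm_real, Real.norm_of_nonneg (Real.exp_pos _).le]

lemma dep_pt (y : ℝ) (θ : Ci) : dep (pt y θ) = y := by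
  unfold dep
  rw [norm_pt, Real.log_exp, neg_neg]

lemma pt_ne (y : ℝ) (θ : Ci) : pt y θ ≠ 0 := by
  rw [← norm_pos_iff, norm_pt]
  exact Real.exp_pos _

lemma norm_pt_lt {y : ℝ} (hy : 0 < y) (θ : Ci) : ‖pt y θ‖ < 1 := by
  rw [norm_pt, Real.exp_lt_one_iff]
  linarith

lemma norm_eq_exp_dep {w : ℂ} (hw : w ≠ 0) : ‖w‖ = Real.exp (-dep w) := by
  unfold dep
  rw [neg_neg, Real.exp_log (norm_pos_iff.mpr hw)]

lemma norm_up (y : ℝ) (w : ℂ) : ‖up y w‖ = Real.exp y * ‖w‖ := by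
  unfold up
  rw [norm_mul, Complex.norm_real, Real.norm_of_nonneg (Real.exp_pos _).le]

lemma up_ne (y : ℝ) {w : ℂ} (hw : w ≠ 0) : up y w ≠ 0 := by
  rw [← norm_pos_iff, norm_up]
  have := norm_pos_iff.mpr hw
  positivity

lemma dep_up (y : ℝ) {w : ℂ} (hw : w ≠ 0) : dep (up y w) = dep w - y := by
  unfold dep
  rw [norm_up, Real.log_mul (Real.exp_pos _).ne' (norm_pos_iff.mpr hw).ne', Real.log_exp]
  ring

lemma up_pt (y d : ℝ) (θ : Ci) : up y (pt d θ) = pt (d - y) θ := by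
  unfold up pt
  rw [← mul_assoc, ← Complex.ofReal_mul, ← Real.exp_add]
  congr 3
  ring

lemma continuous_pt (y : ℝ) : Continuous (pt y) := continuous_const.mul continuous_ze

lemma one_sub_exp_ge {x : ℝ} (hx : 0 ≤ x) : x / (1 + x) ≤ 1 - Real.exp (-x) := by
  have h1 : 1 + x ≤ Real.exp x := by linarith [Real.add_one_le_exp x]
  have h2 : Real.exp (-x) ≤ 1 / (1 + x) := by
    rw [Real.exp_neg, ← one_div]
    exact one_div_le_one_div_of_le (by linarith) h1
  have h3 : x / (1 + x) = 1 - 1 / (1 + x) := by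
    field_simp
    ring
  linarith


lemma ze_add (θ τ : Ci) : ze (θ + τ) = ze θ * ze τ := by
  unfold ze
  rw [fourier_one, fourier_one, fourier_one, AddCircle.toCircle_add, Circle.coe_mul]

lemma norm_ze_sub_ze (θ τ : Ci) : ‖ze θ - ze τ‖ = ‖ze (θ - τ) - 1‖ := by
  have h : ze θ = ze (θ - τ) * ze τ := by rw [← ze_add, sub_add_cancel]
  have h2 : ze θ - ze τ = (ze (θ - τ) - 1) * ze τ := by rw [sub_mul, one_mul, ← h]
  rw [h2, norm_mul, norm_ze, mul_one]

lemma norm_ze_coe_sub_one (x : ℝ) : ‖ze (x : Ci) - 1‖ = 2 * |Real.sin (Real.pi * x)| := by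
  have h : (2 * Real.pi * Complex.I * x : ℂ) = Complex.I * ((2 * Real.pi * x : ℝ) : ℂ) := by
    push_cast
    ring
  rw [ze_coe, h, Complex.norm_exp_I_mul_ofReal_sub_one, norm_mul, Real.norm_eq_abs,
    Real.norm_eq_abs, abs_two]
  congr 3
  ring

/-- A small real representative. -/
lemma exists_rep (δ : Ci) : ∃ x : ℝ, (x : Ci) = δ ∧ |x| = ‖δ‖ := by
  obtain ⟨y, rfl⟩ := QuotientAddGroup.mk_surjective δ
  refine ⟨y - round y, ?_, ?_⟩
  · rw [AddCircle.coe_sub]
    have : ((round y : ℝ) : Ci) = 0 := by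
      rw [AddCircle.coe_eq_zero_iff]
      exact ⟨round y, by simp⟩
    rw [this, sub_zero]
  · have := AddCircle.norm_eq (p := (1 : ℝ)) (x := y)
    simp only [inv_one, one_mul, mul_one] at this
    exact this.symm

lemma norm_ze_sub_one_ge (δ : Ci) : 4 * ‖δ‖ ≤ ‖ze δ - 1‖ := by
  obtain ⟨x, rfl, hx⟩ := exists_rep δ
  rw [norm_ze_coe_sub_one, ← hx]
  have hle : |x| ≤ 1 / 2 := by
    rw [hx]
    have := AddCircle.norm_le_half_period (p := (1 : ℝ)) (x := (x : Ci)) one_ne_zero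
    rwa [abs_one] at this
  have h1 : |Real.sin (Real.pi * x)| = Real.sin (Real.pi * |x|) := by
    rcases le_total 0 x with h | h
    · rw [abs_of_nonneg h] at hle ⊢
      refine abs_of_nonneg (Real.sin_nonneg_of_nonneg_of_le_pi (by positivity) ?_)
      nlinarith [Real.pi_pos]
    · rw [abs_of_nonpos h] at hle ⊢
      rw [mul_neg, Real.sin_neg]
      refine abs_of_nonpos ?_
      have := Real.sin_nonneg_of_nonneg_of_le_pi (x := Real.pi * (-x))
        (by have := Real.pi_pos; nlinarith) (by nlinarith [Real.pi_pos])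
      rw [mul_neg, Real.sin_neg] at this
      linarith
  rw [h1]
  have h2 := Real.mul_le_sin (x := Real.pi * |x|) (by positivity)
    (by nlinarith [Real.pi_pos])
  have h3 : 2 / Real.pi * (Real.pi * |x|) = 2 * |x| := by
    field_simp
  rw [h3] at h2
  linarith

lemma norm_ze_coe_sub_one_le (x : ℝ) : ‖ze (x : Ci) - 1‖ ≤ 2 * Real.pi * |x| := by
  rw [norm_ze_coe_sub_one]
  have h : |Real.sin (Real.pi * x)| ≤ |Real.pi * x| := Real.abs_sin_le_abs
  rw [abs_mul, abs_of_pos Real.pi_pos] at h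
  linarith

/-- Harnack's inequality for small rotations. -/
lemma P_rot {v : ℂ} (hv : ‖v‖ < 1) (θ σ : Ci) (h : ‖ze σ - 1‖ ≤ (1 - ‖v‖) / 4) :
    P v θ ≤ 2 * P v (θ - σ) := by
  have h0 : 0 < 1 - ‖v‖ := by linarith
  have hd1 := dist_pos v θ
  have hd2 := dist_pos v (θ - σ)
  have h1 : ‖ze (θ - σ) - v‖ ≤ 5 / 4 * ‖ze θ - v‖ := by
    have e1 : ze (θ - σ) - v = (ze θ - v) - (ze θ - ze (θ - σ)) := by ring
    have e2 : ‖ze θ - ze (θ - σ)‖ = ‖ze σ - 1‖ := by
      rw [norm_ze_sub_ze]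
      congr 3
      abel
    calc ‖ze (θ - σ) - v‖ ≤ ‖ze θ - v‖ + ‖ze θ - ze (θ - σ)‖ := by
          rw [e1]
          exact norm_sub_le _ _
      _ ≤ 5 / 4 * ‖ze θ - v‖ := by
          rw [e2]
          linarith
  have h2 : 0 < 1 - ‖v‖ ^ 2 := by nlinarith [norm_nonneg v]
  have h3 : 0 < ‖ze θ - v‖ := by linarith
  have h4 : 0 < ‖ze (θ - σ) - v‖ := by linarith
  unfold P
  rw [← mul_div_assoc, div_le_div_iff₀ (by positivity) (by positivity)]
  have h5 : ‖ze (θ - σ) - v‖ ^ 2 ≤ 2 * ‖ze θ - v‖ ^ 2 := by nlinarith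
  nlinarith

/-- Moving inwards. -/
lemma P_in {z : ℂ} (hz : ‖z‖ < 1) {c : ℝ} (hc0 : 0 ≤ c) (hc1 : c ≤ 1) {l : ℝ}
    (hl : 1 - c ^ 2 * ‖z‖ ^ 2 ≤ l * (1 - ‖z‖ ^ 2)) (θ : Ci) :
    P ((c : ℂ) * z) θ ≤ 4 * l * P z θ := by
  have hn : ‖(c : ℂ) * z‖ = c * ‖z‖ := by
    rw [norm_mul, Complex.norm_real, Real.norm_of_nonneg hc0]
  have hcz : c * ‖z‖ ≤ ‖z‖ := by nlinarith [norm_nonneg z]
  have hd1 := dist_pos z θ
  have hd2 := dist_pos ((c : ℂ) * z) θ
  rw [hn] at hd2
  have h1 : ‖ze θ - z‖ ≤ 2 * ‖ze θ - (c : ℂ) * z‖ := by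
    have e1 : ze θ - z = (ze θ - (c : ℂ) * z) - (1 - (c : ℂ)) * z := by ring
    have e2 : ‖(1 - (c : ℂ)) * z‖ = (1 - c) * ‖z‖ := by
      rw [norm_mul]
      congr 1
      rw [← Complex.ofReal_one, ← Complex.ofReal_sub, Complex.norm_real,
        Real.norm_of_nonneg (by linarith)]
    calc ‖ze θ - z‖ ≤ ‖ze θ - (c : ℂ) * z‖ + ‖(1 - (c : ℂ)) * z‖ := by
          rw [e1]
          exact norm_sub_le _ _
      _ ≤ 2 * ‖ze θ - (c : ℂ) * z‖ := by
          rw [e2]
          nlinarith [norm_nonneg z]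
  have h3 : 0 < ‖ze θ - z‖ := by linarith
  have h4 : 0 < ‖ze θ - (c : ℂ) * z‖ := by linarith
  have hz2 : 0 < 1 - ‖z‖ ^ 2 := by nlinarith [norm_nonneg z]
  have hl0 : 0 < l * (1 - ‖z‖ ^ 2) := by
    refine lt_of_lt_of_le ?_ hl
    have : (c * ‖z‖) ^ 2 ≤ ‖z‖ ^ 2 := pow_le_pow_left₀ (by positivity) hcz 2
    rw [mul_pow] at this
    linarith
  unfold P
  rw [hn, ← mul_div_assoc, div_le_div_iff₀ (by positivity) (by positivity), mul_pow]
  have h5 : ‖ze θ - z‖ ^ 2 ≤ 4 * ‖ze θ - (c : ℂ) * z‖ ^ 2 := by nlinarith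
  calc (1 - c ^ 2 * ‖z‖ ^ 2) * ‖ze θ - z‖ ^ 2
      ≤ (l * (1 - ‖z‖ ^ 2)) * (4 * ‖ze θ - (c : ℂ) * z‖ ^ 2) :=
        mul_le_mul hl h5 (by positivity) hl0.le
    _ = 4 * l * (1 - ‖z‖ ^ 2) * ‖ze θ - (c : ℂ) * z‖ ^ 2 := by ring

/-- The far part of the Poisson kernel. -/
lemma P_far {d R : ℝ} (hd : 0 < d) (hR : 1 ≤ R) (θ τ : Ci) (h : R * d < ‖θ - τ‖) :
    P (pt d τ) θ ≤ 9 / (2 * R) * P (pt (R * d) τ) θ := by
  have hRd : 0 < R * d := by positivity
  have hhalf : ‖θ - τ‖ ≤ 1 / 2 := by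
    have := AddCircle.norm_le_half_period (p := (1 : ℝ)) (x := θ - τ) one_ne_zero
    rwa [abs_one] at this
  have hu : ‖pt d τ‖ < 1 := norm_pt_lt hd τ
  have hu' : ‖pt (R * d) τ‖ < 1 := norm_pt_lt hRd τ
  have hchord : 4 * ‖θ - τ‖ ≤ ‖ze θ - ze τ‖ := by
    rw [norm_ze_sub_ze]
    exact norm_ze_sub_one_ge _
  have hdist := dist_pos (pt d τ) θ
  have h1 : ‖ze τ - pt d τ‖ = 1 - ‖pt d τ‖ := by
    have e : ze τ - pt d τ = (1 - (Real.exp (-d) : ℂ)) * ze τ := by
      unfold pt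
      ring
    rw [e, norm_mul, norm_ze, mul_one, norm_pt, ← Complex.ofReal_one, ← Complex.ofReal_sub,
      Complex.norm_real, Real.norm_of_nonneg]
    rw [norm_pt] at hu
    linarith
  have h2 : ‖ze θ - ze τ‖ ≤ 2 * ‖ze θ - pt d τ‖ := by
    have e : ze θ - ze τ = (ze θ - pt d τ) - (ze τ - pt d τ) := by ring
    rw [e]
    refine (norm_sub_le _ _).trans ?_
    rw [h1]
    linarith
  have h3 : 2 * ‖θ - τ‖ ≤ ‖ze θ - pt d τ‖ := by linarith
  have h4 : ‖pt d τ - pt (R * d) τ‖ ≤ R * d := by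
    have e : pt d τ - pt (R * d) τ = ((Real.exp (-d) - Real.exp (-(R * d)) : ℝ) : ℂ) * ze τ := by
      unfold pt
      push_cast
      ring
    rw [e, norm_mul, norm_ze, mul_one, Complex.norm_real, Real.norm_of_nonneg]
    · have e1 : Real.exp (-d) ≤ 1 := Real.exp_le_one_iff.mpr (by linarith)
      have e2 := Real.add_one_le_exp (-(R * d))
      linarith
    · have : Real.exp (-(R * d)) ≤ Real.exp (-d) := Real.exp_le_exp.mpr (by nlinarith)
      linarith
  have h5 : ‖ze θ - pt (R * d) τ‖ ≤ 3 / 2 * ‖ze θ - pt d τ‖ := by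
    have e : ze θ - pt (R * d) τ = (ze θ - pt d τ) + (pt d τ - pt (R * d) τ) := by ring
    rw [e]
    refine (norm_add_le _ _).trans ?_
    linarith
  have hn1 : ‖pt d τ‖ ^ 2 = Real.exp (-(2 * d)) := by
    rw [norm_pt, ← Real.exp_nat_mul]
    congr 1
    push_cast
    ring
  have hn2 : ‖pt (R * d) τ‖ ^ 2 = Real.exp (-(2 * (R * d))) := by
    rw [norm_pt, ← Real.exp_nat_mul]
    congr 1
    push_cast
    ring
  have h6 : 1 - ‖pt d τ‖ ^ 2 ≤ 2 * d := by
    rw [hn1]
    linarith [Real.add_one_le_exp (-(2 * d))]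
  have h7 : R * d ≤ 1 - ‖pt (R * d) τ‖ ^ 2 := by
    rw [hn2]
    have e1 := one_sub_exp_ge (x := 2 * (R * d)) (by positivity)
    have e2 : R * d ≤ 2 * (R * d) / (1 + 2 * (R * d)) := by
      rw [le_div_iff₀ (by positivity)]
      nlinarith
    linarith
  have hp1 : 0 < ‖ze θ - pt d τ‖ := by linarith
  have hp2 : 0 < ‖ze θ - pt (R * d) τ‖ := by
    have := dist_pos (pt (R * d) τ) θ
    linarith
  unfold P
  rw [div_mul_div_comm, div_le_div_iff₀ (by positivity) (by positivity)]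
  have h8 : ‖ze θ - pt (R * d) τ‖ ^ 2 ≤ 9 / 4 * ‖ze θ - pt d τ‖ ^ 2 := by nlinarith
  calc (1 - ‖pt d τ‖ ^ 2) * (2 * R * ‖ze θ - pt (R * d) τ‖ ^ 2)
      ≤ (2 * d) * (2 * R * (9 / 4 * ‖ze θ - pt d τ‖ ^ 2)) := by
        refine mul_le_mul h6 (mul_le_mul_of_nonneg_left h8 (by positivity)) (by positivity)
          (by positivity)
    _ = 9 * (R * d) * ‖ze θ - pt d τ‖ ^ 2 := by ring
    _ ≤ 9 * (1 - ‖pt (R * d) τ‖ ^ 2) * ‖ze θ - pt d τ‖ ^ 2 := by
        refine mul_le_mul_of_nonneg_right ?_ (by positivity)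
        linarith

/-- Poisson formula for functions analytic near the closed disc. -/
lemma poisson' {f : ℂ → ℂ} (hf : DiffContOnCl ℂ f (Metric.ball 0 1)) {w : ℂ} (hw : ‖w‖ < 1) :
    ∫ θ, (P w θ : ℂ) * f (ze θ) ∂mu = f w := by
  have h := hf.circleAverage_poissonKernel_smul (w := w) (c := 0) (R := 1) (by simpa using hw)
  rw [← integral_ze] at h
  rw [← h]
  refine integral_congr_ae (Filter.Eventually.of_forall fun θ => ?_)
  simp only [Pi.smul_apply', poissonKernel_def, sub_zero, norm_ze, P, real_smul]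
  push_cast
  ring

lemma P_eq_re {w : ℂ} (hw : ‖w‖ < 1) (τ : Ci) : P w τ = ((ze τ + w) / (ze τ - w)).re := by
  have hd := dist_pos w τ
  have h1 : 0 < ‖ze τ - w‖ := by linarith
  have hn : (ze τ).re ^ 2 + (ze τ).im ^ 2 = 1 := by
    have := norm_ze τ
    have h2 : ‖ze τ‖ ^ 2 = 1 := by rw [this]; norm_num
    rw [Complex.sq_norm, Complex.normSq_apply] at h2
    linarith
  unfold P
  rw [Complex.div_re, Complex.sq_norm, Complex.sq_norm]
  have h3 : Complex.normSq (ze τ - w) ≠ 0 := by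
    rw [Ne, Complex.normSq_eq_zero, ← norm_eq_zero]
    exact h1.ne'
  rw [← add_div, div_left_inj' h3, Complex.normSq_apply]
  simp only [Complex.add_re, Complex.add_im, Complex.sub_re, Complex.sub_im]
  nlinarith

/-- Semigroup property of the Poisson kernel. -/
lemma P_semi {l : ℝ} (hl : 0 < l) {v : ℂ} (hv : ‖v‖ < 1) (τ : Ci) :
    ∫ θ, P v θ * P (pt l θ) τ ∂mu = P (up (-l) v) τ := by
  set r : ℝ := Real.exp (-l) with hr
  have hr0 : 0 < r := Real.exp_pos _
  have hr1 : r < 1 := by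
    rw [hr, Real.exp_lt_one_iff]
    linarith
  set q : ℂ → ℂ := fun z => (ze τ + r * z) / (ze τ - r * z) with hq
  have hne : ∀ z : ℂ, ‖z‖ ≤ 1 → ze τ - r * z ≠ 0 := by
    intro z hz h
    have h1 : ze τ = r * z := sub_eq_zero.mp h
    have h2 : ‖ze τ‖ = r * ‖z‖ := by
      rw [h1, norm_mul, Complex.norm_real, Real.norm_of_nonneg hr0.le]
    rw [norm_ze] at h2
    nlinarith
  have hqd : DiffContOnCl ℂ q (Metric.ball 0 1) := by
    have hd : DifferentiableOn ℂ q (Metric.closedBall 0 1) := by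
      intro z hz
      have hz' : ‖z‖ ≤ 1 := by simpa using hz
      refine DifferentiableAt.differentiableWithinAt ?_
      exact DifferentiableAt.div (by fun_prop) (by fun_prop) (hne z hz')
    refine DifferentiableOn.diffContOnCl ?_
    rw [closure_ball (0 : ℂ) one_ne_zero]
    exact hd
  have h := poisson' hqd hv
  have hup : up (-l) v = (r : ℂ) * v := rfl
  have hnv : ‖up (-l) v‖ < 1 := by
    rw [hup, norm_mul, Complex.norm_real, Real.norm_of_nonneg hr0.le]
    nlinarith [norm_nonneg v]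
  rw [P_eq_re hnv, hup]
  have h' : q v = (ze τ + r * v) / (ze τ - r * v) := rfl
  rw [← h', ← h]
  have hcont : Continuous fun θ => (P v θ : ℂ) * q (ze θ) := by
    refine (Complex.continuous_ofReal.comp (continuous_P hv)).mul ?_
    refine Continuous.div ?_ ?_ fun θ => hne _ (norm_ze θ).le
    · exact continuous_const.add (continuous_const.mul continuous_ze)
    · exact continuous_const.sub (continuous_const.mul continuous_ze)
  have h2 := integral_re (𝕜 := ℂ) (μ := mu) (f := fun θ => (P v θ : ℂ) * q (ze θ))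
    (integrable_of_cont hcont)
  simp only [RCLike.re_eq_complex_re] at h2
  rw [← h2]
  refine integral_congr_ae (Filter.Eventually.of_forall fun θ => ?_)
  simp only [Complex.re_ofReal_mul]
  congr 1
  rw [P_eq_re (norm_pt_lt hl θ)]
  rfl

lemma continuous_P_pt {l : ℝ} (hl : 0 < l) :
    Continuous fun x : Ci × Ci => P (pt l x.1) x.2 := by
  unfold P
  refine Continuous.div ?_ ?_ ?_
  · exact continuous_const.sub (((continuous_pt l).comp continuous_fst).norm.pow 2)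
  · exact ((continuous_ze.comp continuous_snd).sub
      ((continuous_pt l).comp continuous_fst)).norm.pow 2
  · intro x
    have h := dist_pos (pt l x.1) x.2
    have h2 := norm_pt_lt hl x.1
    have h1 : 0 < ‖ze x.2 - pt l x.1‖ := by linarith
    positivity

lemma integrable_of_cont2 {f : Ci × Ci → ℝ} (hf : Continuous f) :
    Integrable f (mu.prod mu) :=
  hf.integrable_of_hasCompactSupport (HasCompactSupport.of_compactSpace _)

lemma integrable_semi {g : Ci → ℝ} (hg : Continuous g) {l : ℝ} (hl : 0 < l) {v : ℂ}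
    (hv : ‖v‖ < 1) :
    Integrable (Function.uncurry fun θ τ : Ci => P v θ * (P (pt l θ) τ * g τ)) (mu.prod mu) := by
  have hc : Continuous fun x : Ci × Ci => P v x.1 * (P (pt l x.1) x.2 * g x.2) :=
    ((continuous_P hv).comp continuous_fst).mul
      ((continuous_P_pt hl).mul (hg.comp continuous_snd))
  exact integrable_of_cont2 hc

lemma semi_inner {g : Ci → ℝ} {l : ℝ} {v : ℂ} (θ : Ci) :
    P v θ * PI g (pt l θ) = ∫ τ, P v θ * (P (pt l θ) τ * g τ) ∂mu := by
  simp only [PI]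
  rw [← integral_const_mul]

/-- Semigroup property of the Poisson integral. -/
lemma PI_semi {g : Ci → ℝ} (hg : Continuous g) {l : ℝ} (hl : 0 < l) {v : ℂ} (hv : ‖v‖ < 1) :
    ∫ θ, P v θ * PI g (pt l θ) ∂mu = PI g (up (-l) v) := by
  have h1 : ∫ θ, P v θ * PI g (pt l θ) ∂mu
      = ∫ θ, ∫ τ, P v θ * (P (pt l θ) τ * g τ) ∂mu ∂mu :=
    integral_congr_ae (Filter.Eventually.of_forall fun θ => semi_inner θ)
  rw [h1, integral_integral_swap (integrable_semi hg hl hv)]
  unfold PI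
  refine integral_congr_ae (Filter.Eventually.of_forall fun τ => ?_)
  simp only
  rw [← P_semi hl hv τ, ← integral_mul_const]
  refine integral_congr_ae (Filter.Eventually.of_forall fun θ => ?_)
  simp only
  ring

lemma integrable_P_PI {g : Ci → ℝ} (hg : Continuous g) {l : ℝ} (hl : 0 < l) {v : ℂ}
    (hv : ‖v‖ < 1) : Integrable (fun θ => P v θ * PI g (pt l θ)) mu := by
  have h := (integrable_semi hg hl hv).integral_prod_left
  refine h.congr (Filter.Eventually.of_forall fun θ => ?_)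
  exact (semi_inner θ).symm

lemma PI_mono_P {g : Ci → ℝ} (hg : Continuous g) (hg0 : ∀ θ, 0 ≤ g θ) {v w : ℂ} (hv : ‖v‖ < 1)
    (hw : ‖w‖ < 1) {C : ℝ} (h : ∀ θ, P v θ ≤ C * P w θ) : PI g v ≤ C * PI g w := by
  unfold PI
  rw [← integral_const_mul]
  refine integral_mono (integrable_of_cont ((continuous_P hv).mul hg))
    (integrable_of_cont (continuous_const.mul ((continuous_P hw).mul hg))) fun θ => ?_
  simp only
  rw [← mul_assoc]
  exact mul_le_mul_of_nonneg_right (h θ) (hg0 θ)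

lemma PI_nonneg {g : Ci → ℝ} (hg0 : ∀ θ, 0 ≤ g θ) {v : ℂ} (hv : ‖v‖ < 1) : 0 ≤ PI g v :=
  integral_nonneg fun θ => mul_nonneg (P_pos hv θ).le (hg0 θ)

/-- Averaging over small rotations. -/
lemma PI_avg {φ : Ci → ℝ} (hφ : Continuous φ) (hφ0 : ∀ θ, 0 ≤ φ θ) {v : ℂ} (hv : ‖v‖ < 1)
    {a : ℝ} (ha : 0 < a) (h : 2 * Real.pi * a ≤ (1 - ‖v‖) / 4) :
    Integrable (fun θ => P v θ * ∫ s in (-a)..a, φ (θ + (s : Ci))) mu ∧
    a * PI φ v ≤ ∫ θ, P v θ * (∫ s in (-a)..a, φ (θ + (s : Ci))) ∂mu := by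
  have hcoe : Continuous fun s : ℝ => (s : Ci) := AddCircle.continuous_mk' 1
  set ν : Measure ℝ := volume.restrict (Ioc (-a) a) with hν
  have hfin : IsFiniteMeasure ν := by
    rw [hν]
    infer_instance
  have hc : Continuous fun x : Ci × ℝ => P v x.1 * φ (x.1 + (x.2 : Ci)) :=
    ((continuous_P hv).comp continuous_fst).mul
      (hφ.comp (continuous_fst.add (hcoe.comp continuous_snd)))
  obtain ⟨B, hB⟩ : ∃ B, ∀ θ, φ θ ≤ B := by
    obtain ⟨x, _, hx⟩ := isCompact_univ.exists_isMaxOn (univ_nonempty (α := Ci)) hφ.continuousOn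
    exact ⟨φ x, fun θ => hx (mem_univ θ)⟩
  have hint : Integrable (Function.uncurry fun (θ : Ci) (s : ℝ) => P v θ * φ (θ + (s : Ci)))
      (mu.prod ν) := by
    refine Integrable.of_bound hc.aestronglyMeasurable (2 / (1 - ‖v‖) * B)
      (Filter.Eventually.of_forall fun x => ?_)
    simp only [Function.uncurry]
    rw [norm_mul, Real.norm_of_nonneg (P_pos hv _).le, Real.norm_of_nonneg (hφ0 _)]
    have := P_pos hv x.1
    exact mul_le_mul (P_le hv _) (hB _) (hφ0 _) (this.le.trans (P_le hv _))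
  have hinner : ∀ θ : Ci, P v θ * ∫ s in (-a)..a, φ (θ + (s : Ci))
      = ∫ s, P v θ * φ (θ + (s : Ci)) ∂ν := by
    intro θ
    rw [intervalIntegral.integral_of_le (by linarith), ← integral_const_mul]
  constructor
  · refine hint.integral_prod_left.congr (Filter.Eventually.of_forall fun θ => ?_)
    exact (hinner θ).symm
  · have h1 : ∫ θ, P v θ * (∫ s in (-a)..a, φ (θ + (s : Ci))) ∂mu
        = ∫ θ, ∫ s, P v θ * φ (θ + (s : Ci)) ∂ν ∂mu :=
      integral_congr_ae (Filter.Eventually.of_forall fun θ => hinner θ)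
    rw [h1, integral_integral_swap hint]
    have h2 : ∀ s ∈ Ioc (-a) a, 1 / 2 * PI φ v ≤ ∫ θ, P v θ * φ (θ + (s : Ci)) ∂mu := by
      intro s hs
      have hs' : |s| ≤ a := abs_le.mpr ⟨hs.1.le, hs.2⟩
      have h3 : ∫ θ, P v θ * φ (θ + (s : Ci)) ∂mu = ∫ θ, P v (θ - (s : Ci)) * φ θ ∂mu := by
        rw [← integral_add_right_eq_self (μ := mu) (fun θ => P v (θ - (s : Ci)) * φ θ) (s : Ci)]
        simp only [add_sub_cancel_right]
      rw [h3]
      unfold PI
      rw [← integral_const_mul]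
      refine integral_mono (integrable_of_cont (continuous_const.mul ((continuous_P hv).mul hφ)))
        (integrable_of_cont (((continuous_P hv).comp (continuous_id.sub continuous_const)).mul hφ))
        fun θ => ?_
      simp only
      rw [← mul_assoc]
      refine mul_le_mul_of_nonneg_right ?_ (hφ0 θ)
      have h4 := P_rot hv θ (s : Ci) (by
        refine (norm_ze_coe_sub_one_le s).trans (le_trans ?_ h)
        have := Real.pi_pos
        nlinarith)
      linarith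
    have h5 : ∫ s in Ioc (-a) a, (1 / 2 * PI φ v) ≤ ∫ s, ∫ θ, P v θ * φ (θ + (s : Ci)) ∂mu ∂ν := by
      refine setIntegral_mono_on ?_ hint.integral_prod_right measurableSet_Ioc h2
      exact integrable_const _
    have h6 : ∫ s in Ioc (-a) a, (1 / 2 * PI φ v) = a * PI φ v := by
      rw [setIntegral_const, Real.volume_real_Ioc_of_le (by linarith), smul_eq_mul]
      ring
    linarith

end

end Pool.Agent.Run7.h437.Q2
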